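import Pool.Agent.Helper22_LLG.Stmt
import Pool.Agent.Helper10_LAG.Uniq
import Pool.Agent.Helper76_LAG.Near

/-!
Squad LLG, module DEN
-/

set_option autoImplicit false

namespace Pool.Agent.LLG.H56

open SimpleGraph Pool.Agent.LAG Finset

/-- parents in a ball -/
theorem exists_par {V : Type} (A : SimpleGraph V) (hA : Big A 400) (x : V) :
    ∃ par : V → V, ∀ a b, A.Adj a b → near A 92 a x → near A 92 b x → par a = b ∨ par b = a := by
  classical
  have h0 : ∀ v, ∃ w : V, near A 92 v x → ∀ p : A.Walk v x, p.IsPath → p.length ≤ 200 →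
      p.snd = w := by
    intro v
    by_cases h : ∃ p : A.Walk v x, p.IsPath ∧ p.length ≤ 200
    · obtain ⟨p, hp, hl⟩ := h
      refine ⟨p.snd, fun _ q hq hql => ?_⟩
      rw [uniq V A 400 hA _ _ q p hq hp (by omega)]
    · refine ⟨v, fun _ q hq hql => absurd ⟨q, hq, hql⟩ h⟩
  choose par hpar using h0
  refine ⟨par, fun a b hab ha hb => ?_⟩
  have ha' := ha
  obtain ⟨p0, hp0⟩ := ha'
  set p := p0.bypass with hp
  have hpp : p.IsPath := p0.bypass_isPath
  have hpl : p.length ≤ 92 := (p0.length_bypass_le_length).trans hp0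
  by_cases hbs : b ∈ p.support
  · left
    have h1 : (p.takeUntil b hbs).IsPath := hpp.takeUntil hbs
    have h2 : (Walk.cons hab Walk.nil : A.Walk a b).IsPath := by
      rw [Walk.isPath_def]
      simp [hab.ne]
    have h3 := uniq V A 400 hA _ _ (p.takeUntil b hbs) (Walk.cons hab Walk.nil) h1 h2 (by
      have := p.length_takeUntil_le_length hbs
      simp only [Walk.length_cons, Walk.length_nil]
      omega)
    have h4 : p.snd = b := by
      have h5 := p.take_spec hbs
      rw [h3] at h5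
      rw [← h5]
      simp
    rw [← h4]
    exact (hpar a ha p hpp (by omega)).symm
  · right
    have h1 : (Walk.cons hab.symm p).IsPath := hpp.cons hbs
    have h2 := hpar b hb (Walk.cons hab.symm p) h1 (by
      rw [Walk.length_cons]
      omega)
    rw [← h2]
    simp

section count

variable {V : Type} [Fintype V] (A R : SimpleGraph V) (O : V → V → Prop)

omit [Fintype V] in
theorem adj_bas (hR : R ≤ A) (hO : ∀ x y, O x y → R.Adj x y) {u u' : V ⊕ V}
    (h : (dbl O).Adj u u') : A.Adj (bas u) (bas u') := by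
  rcases h with ⟨x, y, rfl, rfl, h⟩ | ⟨x, y, rfl, rfl, h⟩
  · exact hR (hO x y h)
  · exact (hR (hO x y h)).symm

omit [Fintype V] in
/-- adjacent vertices are on different sides -/
theorem adj_inj {u u' u'' : V ⊕ V} (h : (dbl O).Adj u u') (h' : (dbl O).Adj u u'')
    (hb : bas u' = bas u'') : u' = u'' := by
  rcases h with ⟨x, y, rfl, rfl, h⟩ | ⟨x, y, rfl, rfl, h⟩
  · rcases h' with ⟨x', y', h1, rfl, h'⟩ | ⟨x', y', h1, rfl, h'⟩
    · exact congrArg Sum.inr hb
    · exact absurd h1 (by simp)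
  · rcases h' with ⟨x', y', h1, rfl, h'⟩ | ⟨x', y', h1, rfl, h'⟩
    · exact absurd h1 (by simp)
    · exact congrArg Sum.inl hb

open Classical in
theorem ins_le (hR : R ≤ A) (hO : ∀ x y, O x y → R.Adj x y) (hA : Big A 400) (x : V)
    (K : Finset (V ⊕ V)) (hK : ∀ u ∈ K, near A 92 (bas u) x) :
    ((K ×ˢ K).filter (fun e => (dbl O).Adj e.1 e.2)).card ≤ 2 * K.card := by
  obtain ⟨par, hpar⟩ := exists_par A hA x
  set E := (K ×ˢ K).filter (fun e => (dbl O).Adj e.1 e.2) with hE
  set E1 := E.filter (fun e => par (bas e.1) = bas e.2) with hE1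
  set E2 := E.filter (fun e => par (bas e.2) = bas e.1) with hE2
  have h1 : E ⊆ E1 ∪ E2 := by
    intro e he
    have he' := he
    rw [hE, mem_filter, mem_product] at he'
    obtain ⟨⟨h2, h3⟩, h4⟩ := he'
    rw [mem_union]
    rcases hpar _ _ (adj_bas A R O hR hO h4) (hK _ h2) (hK _ h3) with h5 | h5
    · left
      exact mem_filter.2 ⟨he, h5⟩
    · right
      exact mem_filter.2 ⟨he, h5⟩
  have h2 : E1.card ≤ K.card := by
    apply card_le_card_of_injOn Prod.fst
    · intro e he
      rw [hE1, mem_coe, mem_filter, hE, mem_filter, mem_product] at he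
      exact he.1.1.1
    · intro e he e' he' hee
      rw [hE1, mem_coe, mem_filter, hE, mem_filter, mem_product] at he he'
      have h3 := he.1.2
      have h4 := he'.1.2
      rw [← hee] at h4
      refine Prod.ext hee (adj_inj O h3 h4 ?_)
      rw [← he.2, ← he'.2, hee]
  have h3 : E2.card ≤ K.card := by
    apply card_le_card_of_injOn Prod.snd
    · intro e he
      rw [hE2, mem_coe, mem_filter, hE, mem_filter, mem_product] at he
      exact he.1.1.2
    · intro e he e' he' hee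
      rw [hE2, mem_coe, mem_filter, hE, mem_filter, mem_product] at he he'
      have h3 := he.1.2.symm
      have h4 := he'.1.2.symm
      rw [← hee] at h4
      refine Prod.ext (adj_inj O h3 h4 ?_) hee
      rw [← he.2, ← he'.2, hee]
  have h4 := card_le_card h1
  have h5 := card_union_le E1 E2
  omega

open Classical in
theorem deg_dbl {k : ℕ} (hk : ∀ v, {w | O v w}.ncard = k ∧ {w | O w v}.ncard = k) (u : V ⊕ V) :
    (univ.filter (fun u' => (dbl O).Adj u u')).card = k := by
  rcases u with v | v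
  · rw [← (hk v).1, Set.ncard_eq_toFinset_card']
    symm
    apply card_bij (fun w _ => Sum.inr w)
    · intro w hw
      rw [Set.mem_toFinset] at hw
      exact mem_filter.2 ⟨mem_univ _, Or.inl ⟨v, w, rfl, rfl, hw⟩⟩
    · intro w _ w' _ h
      exact Sum.inr_injective h
    · intro u' hu'
      rw [mem_filter] at hu'
      rcases hu'.2 with ⟨x, y, h1, rfl, h⟩ | ⟨x, y, h1, rfl, h⟩
      · refine ⟨y, ?_, rfl⟩
        rw [Set.mem_toFinset, Sum.inl_injective h1]
        exact h
      · exact absurd h1 (by simp)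
  · rw [← (hk v).2, Set.ncard_eq_toFinset_card']
    symm
    apply card_bij (fun w _ => Sum.inl w)
    · intro w hw
      rw [Set.mem_toFinset] at hw
      exact mem_filter.2 ⟨mem_univ _, Or.inr ⟨w, v, rfl, rfl, hw⟩⟩
    · intro w _ w' _ h
      exact Sum.inl_injective h
    · intro u' hu'
      rw [mem_filter] at hu'
      rcases hu'.2 with ⟨x, y, h1, rfl, h⟩ | ⟨x, y, h1, rfl, h⟩
      · exact absurd h1 (by simp)
      · refine ⟨x, ?_, rfl⟩
        rw [Set.mem_toFinset, Sum.inr_injective h1]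
        exact h

open Classical in
/-- one step -/
theorem step_le (hR : R ≤ A) (hO : ∀ x y, O x y → R.Adj x y) (hA : Big A 400) {k : ℕ}
    (hk : ∀ v, {w | O v w}.ncard = k ∧ {w | O w v}.ncard = k) (x : V) (U : Set (V ⊕ V)) (i : ℕ)
    (hi : i ≤ 1) :
    k * (univ.filter (fun u => u ∈ U ∧ near A (90 + i) (bas u) x)).card ≤
      2 * (univ.filter (fun u => u ∈ U ∧ near A (91 + i) (bas u) x)).card +
      (univ.filter (fun e : (V ⊕ V) × (V ⊕ V) => (e.1 ∈ U ∧ e.2 ∉ U ∧ (dbl O).Adj e.1 e.2) ∧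
        near A 91 (bas e.1) x)).card := by
  set U0 := univ.filter (fun u => u ∈ U ∧ near A (90 + i) (bas u) x) with hU0
  set U1 := univ.filter (fun u => u ∈ U ∧ near A (91 + i) (bas u) x) with hU1
  set Bx := univ.filter (fun e : (V ⊕ V) × (V ⊕ V) => (e.1 ∈ U ∧ e.2 ∉ U ∧
    (dbl O).Adj e.1 e.2) ∧ near A 91 (bas e.1) x) with hBx
  set P := univ.filter (fun e : (V ⊕ V) × (V ⊕ V) => e.1 ∈ U0 ∧ (dbl O).Adj e.1 e.2) with hP
  have h1 : P.card = k * U0.card := by
    have h2 : ∀ e ∈ P, e.1 ∈ U0 := fun e he => (mem_filter.1 he).2.1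
    rw [card_eq_sum_card_fiberwise h2, sum_congr rfl (g := fun _ => k), sum_const, smul_eq_mul,
      mul_comm]
    intro u hu
    rw [← deg_dbl O hk u]
    apply card_bij (fun e _ => e.2)
    · intro e he
      rw [mem_filter, hP, mem_filter] at he
      rw [mem_filter, ← he.2]
      exact ⟨mem_univ _, he.1.2.2⟩
    · intro e he e' he' h
      rw [mem_filter] at he he'
      exact Prod.ext (he.2.trans he'.2.symm) h
    · intro u' hu'
      refine ⟨(u, u'), ?_, rfl⟩
      rw [mem_filter, hP, mem_filter]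
      exact ⟨⟨mem_univ _, hu, (mem_filter.1 hu').2⟩, rfl⟩
  have h2 : P ⊆ ((U1 ×ˢ U1).filter (fun e => (dbl O).Adj e.1 e.2)) ∪ Bx := by
    rintro ⟨u, u'⟩ he
    rw [hP, mem_filter, hU0, mem_filter] at he
    obtain ⟨-, ⟨-, h3, h4⟩, h5⟩ := he
    rw [mem_union]
    by_cases h6 : u' ∈ U
    · left
      rw [mem_filter, mem_product, hU1, mem_filter, mem_filter]
      refine ⟨⟨⟨mem_univ _, h3, near_mono (by omega) h4⟩, mem_univ _, h6, ?_⟩, h5⟩
      have h7 := near_trans (near_symm (near_adj (adj_bas A R O hR hO h5))) h4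
      exact near_mono (by omega) h7
    · right
      rw [hBx, mem_filter]
      exact ⟨mem_univ _, ⟨h3, h6, h5⟩, near_mono (by omega) h4⟩
  have h3 := card_le_card h2
  have h4 := card_union_le ((U1 ×ˢ U1).filter (fun e => (dbl O).Adj e.1 e.2)) Bx
  have h5 := ins_le A R O hR hO hA x U1 (fun u hu => by
    rw [hU1, mem_filter] at hu
    exact near_mono (by omega) hu.2.2)
  rw [h1] at h3
  omega

omit [Fintype V] in
open Classical in
/-- double counting -/
theorem dc {E : Type} [Fintype E] (Q : Finset V) (S : E → Prop) (b : E → V) (r q : ℕ)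
    (hr : r ≤ 93) (hq : ∀ v, (Q.filter (fun x => near A 93 x v)).card ≤ q) :
    ∑ x ∈ Q, (univ.filter (fun e => S e ∧ near A r (b e) x)).card ≤
      q * (univ.filter S).card := by
  have h1 : ∀ x ∈ Q, (univ.filter (fun e => S e ∧ near A r (b e) x)).card =
      ∑ e ∈ univ.filter S, if near A r (b e) x then 1 else 0 := by
    intro x _
    rw [← filter_filter, card_filter]
  rw [sum_congr rfl h1, sum_comm, mul_comm, ← smul_eq_mul, ← sum_const]
  apply sum_le_sum
  intro e _
  rw [← card_filter]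
  refine le_trans (card_le_card ?_) (hq (b e))
  intro x hx
  rw [mem_filter] at hx ⊢
  exact ⟨hx.1, near_mono hr (near_symm hx.2)⟩

end count

/-- DEN -/
theorem den : DenStmt := by
  classical
  intro V _ A R O Q k q hk1 hR hO _ hk hA hq U
  set Qf := univ.filter (fun x => x ∈ Q) with hQf
  have hq' : ∀ v, (Qf.filter (fun x => near A 93 x v)).card ≤ q := by
    intro v
    have h1 := hq v
    have h2 : {x | x ∈ Q ∧ near A 93 x v} = ↑(Qf.filter (fun x => near A 93 x v)) := by
      ext x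
      simp [hQf]
    rwa [h2, Set.ncard_coe_finset] at h1
  have eU : U.ncard = (univ.filter (fun u => u ∈ U)).card := by
    rw [← Set.ncard_coe_finset]
    congr 1
    ext u
    simp
  have eB : bd (dbl O) U = (univ.filter (fun e : (V ⊕ V) × (V ⊕ V) => e.1 ∈ U ∧ e.2 ∉ U ∧
      (dbl O).Adj e.1 e.2)).card := by
    unfold bd
    rw [← Set.ncard_coe_finset]
    congr 1
    ext u
    simp
  have eN : {u | u ∈ U ∧ bas u ∉ alw A Q}.ncard ≤
      ∑ x ∈ Qf, (univ.filter (fun u => u ∈ U ∧ near A 90 (bas u) x)).card := by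
    have h1 : {u | u ∈ U ∧ bas u ∉ alw A Q} ⊆
        ↑(Qf.biUnion fun x => univ.filter (fun u => u ∈ U ∧ near A 90 (bas u) x)) := by
      rintro u ⟨hu, hu'⟩
      unfold alw at hu'
      rw [Set.mem_ofPred_eq] at hu'
      push Not at hu'
      obtain ⟨x, hx, hx'⟩ := hu'
      rw [mem_coe, mem_biUnion]
      exact ⟨x, mem_filter.2 ⟨mem_univ _, hx⟩, mem_filter.2 ⟨mem_univ _, hu, hx'⟩⟩
    have h2 := Set.ncard_le_ncard h1 (Finset.finite_toSet _)
    rw [Set.ncard_coe_finset] at h2
    exact h2.trans card_biUnion_le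
  -- one point
  have key : ∀ x, k ^ 2 * (univ.filter (fun u => u ∈ U ∧ near A 90 (bas u) x)).card ≤
      4 * (univ.filter (fun u => u ∈ U ∧ near A 92 (bas u) x)).card +
      3 * k * (univ.filter (fun e : (V ⊕ V) × (V ⊕ V) => (e.1 ∈ U ∧ e.2 ∉ U ∧
        (dbl O).Adj e.1 e.2) ∧ near A 91 (bas e.1) x)).card := by
    intro x
    have h0 := step_le A R O hR hO hA hk x U 0 (by omega)
    have h1 := step_le A R O hR hO hA hk x U 1 (by omega)
    simp only [add_zero] at h0
    norm_num at h1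
    set u0 := (univ.filter (fun u => u ∈ U ∧ near A 90 (bas u) x)).card
    set u1 := (univ.filter (fun u => u ∈ U ∧ near A 91 (bas u) x)).card
    set u2 := (univ.filter (fun u => u ∈ U ∧ near A 92 (bas u) x)).card
    set b := (univ.filter (fun e : (V ⊕ V) × (V ⊕ V) => (e.1 ∈ U ∧ e.2 ∉ U ∧
        (dbl O).Adj e.1 e.2) ∧ near A 91 (bas e.1) x)).card
    calc k ^ 2 * u0 = k * (k * u0) := by ring
      _ ≤ k * (2 * u1 + b) := Nat.mul_le_mul_left _ h0
      _ = 2 * (k * u1) + k * b := by ring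
      _ ≤ 2 * (2 * u2 + b) + k * b := by gcongr
      _ = 4 * u2 + (2 * 1 + k) * b := by ring
      _ ≤ 4 * u2 + (2 * k + k) * b := by gcongr
      _ = 4 * u2 + 3 * k * b := by ring
  have s2 := dc A Qf (fun u => u ∈ U) (fun u : V ⊕ V => bas u) 92 q (by norm_num) hq'
  have sb := dc A Qf (fun e : (V ⊕ V) × (V ⊕ V) => e.1 ∈ U ∧ e.2 ∉ U ∧ (dbl O).Adj e.1 e.2)
    (fun e => bas e.1) 91 q (by norm_num) hq'
  rw [eU, eB]
  calc k ^ 2 * {u | u ∈ U ∧ bas u ∉ alw A Q}.ncard
      ≤ k ^ 2 * ∑ x ∈ Qf, (univ.filter (fun u => u ∈ U ∧ near A 90 (bas u) x)).card :=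
        Nat.mul_le_mul_left _ eN
    _ = ∑ x ∈ Qf, k ^ 2 * (univ.filter (fun u => u ∈ U ∧ near A 90 (bas u) x)).card := by
        rw [mul_sum]
    _ ≤ ∑ x ∈ Qf, (4 * (univ.filter (fun u => u ∈ U ∧ near A 92 (bas u) x)).card +
      3 * k * (univ.filter (fun e : (V ⊕ V) × (V ⊕ V) => (e.1 ∈ U ∧ e.2 ∉ U ∧
        (dbl O).Adj e.1 e.2) ∧ near A 91 (bas e.1) x)).card) := sum_le_sum fun x _ => key x
    _ = 4 * ∑ x ∈ Qf, (univ.filter (fun u => u ∈ U ∧ near A 92 (bas u) x)).card +
      3 * k * ∑ x ∈ Qf, (univ.filter (fun e : (V ⊕ V) × (V ⊕ V) => (e.1 ∈ U ∧ e.2 ∉ U ∧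
        (dbl O).Adj e.1 e.2) ∧ near A 91 (bas e.1) x)).card := by
        rw [sum_add_distrib, ← mul_sum, ← mul_sum]
    _ ≤ 4 * (q * (univ.filter (fun u => u ∈ U)).card) +
      3 * k * (q * (univ.filter (fun e : (V ⊕ V) × (V ⊕ V) => e.1 ∈ U ∧ e.2 ∉ U ∧
        (dbl O).Adj e.1 e.2)).card) :=
        add_le_add (Nat.mul_le_mul_left _ (by convert s2)) (Nat.mul_le_mul_left _ (by convert sb))
    _ = _ := by ring

end Pool.Agent.LLG.H56
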